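import Pool.Agent.U503.KC.Maps

set_option autoImplicit false

/-!
# The deformation of the three spheres

Spheres of radius `3` and `6` around `0` and of radius `2` around `c0`, `|c0| = 10`.  For
`σ = η sin t` the radii become the cube roots of `27 + σ`, `216 + σ` and `8 - σ`.
-/

open Set Filter Topology Metric MeasureTheory
open scoped ContDiff ENNReal NNReal Pointwise

namespace Pool.Agent.U503.KC

/-- the centre of the third sphere -/
noncomputable def c0 : E3 := EuclideanSpace.single 0 10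

lemma norm_c0 : ‖c0‖ = 10 := by
  rw [c0, EuclideanSpace.norm_single]
  norm_num

noncomputable def fA : ContDiffBump (0 : E3) := ⟨4, 5, by norm_num, by norm_num⟩
noncomputable def fR : ContDiffBump (0 : E3) := ⟨13 / 2, 7, by norm_num, by norm_num⟩
noncomputable def fB : ContDiffBump c0 := ⟨5 / 2, 29 / 10, by norm_num, by norm_num⟩

noncomputable def lR (σ : ℝ) : ℝ := (1 + σ / 216) ^ (1 / 3 : ℝ)
noncomputable def lA (σ : ℝ) : ℝ := (1 + σ / 27) ^ (1 / 3 : ℝ)
noncomputable def lB (σ : ℝ) : ℝ := (1 - σ / 8) ^ (1 / 3 : ℝ)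
noncomputable def lM (σ : ℝ) : ℝ := lA σ / lR σ

/-- the map for the parameter `σ` -/
noncomputable def Psi (σ : ℝ) (x : E3) : E3 :=
  psi c0 fB (lB σ) (psi 0 fR (lR σ) (psi 0 fA (lM σ) x))

lemma lR_zero : lR 0 = 1 := by simp [lR]
lemma lA_zero : lA 0 = 1 := by simp [lA]
lemma lB_zero : lB 0 = 1 := by simp [lB]
lemma lM_zero : lM 0 = 1 := by simp [lM, lR_zero, lA_zero]

lemma Psi_zero (x : E3) : Psi 0 x = x := by
  rw [Psi, lB_zero, lR_zero, lM_zero, psi_zero_sub, psi_zero_sub, psi_zero_sub]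

lemma lR_pos {σ : ℝ} (h : |σ| < 1) : 0 < lR σ := by
  have := abs_lt.1 h
  exact Real.rpow_pos_of_pos (by linarith) _
lemma lA_pos {σ : ℝ} (h : |σ| < 1) : 0 < lA σ := by
  have := abs_lt.1 h
  exact Real.rpow_pos_of_pos (by linarith) _
lemma lB_pos {σ : ℝ} (h : |σ| < 1) : 0 < lB σ := by
  have := abs_lt.1 h
  exact Real.rpow_pos_of_pos (by linarith) _
lemma lM_pos {σ : ℝ} (h : |σ| < 1) : 0 < lM σ := div_pos (lA_pos h) (lR_pos h)

lemma cube_rpow {u : ℝ} (hu : 0 ≤ u) : (u ^ (1 / 3 : ℝ)) ^ 3 = u := by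
  rw [← Real.rpow_natCast, ← Real.rpow_mul hu]
  norm_num

lemma lR_cube {σ : ℝ} (h : |σ| < 1) : (6 * lR σ) ^ 3 = 216 + σ := by
  have := abs_lt.1 h
  rw [mul_pow, lR, cube_rpow (by linarith)]
  ring
lemma lA_cube {σ : ℝ} (h : |σ| < 1) : (3 * lA σ) ^ 3 = 27 + σ := by
  have := abs_lt.1 h
  rw [mul_pow, lA, cube_rpow (by linarith)]
  ring
lemma lB_cube {σ : ℝ} (h : |σ| < 1) : (2 * lB σ) ^ 3 = 8 - σ := by
  have := abs_lt.1 h
  rw [mul_pow, lB, cube_rpow (by linarith)]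
  ring

lemma lR_cont : ContinuousAt lR 0 := by
  have : ContinuousAt (fun σ : ℝ => (1 + σ / 216)) 0 := by fun_prop
  exact this.rpow_const (Or.inl (by norm_num))
lemma lA_cont : ContinuousAt lA 0 := by
  have : ContinuousAt (fun σ : ℝ => (1 + σ / 27)) 0 := by fun_prop
  exact this.rpow_const (Or.inl (by norm_num))
lemma lB_cont : ContinuousAt lB 0 := by
  have : ContinuousAt (fun σ : ℝ => (1 - σ / 8)) 0 := by fun_prop
  exact this.rpow_const (Or.inl (by norm_num))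
lemma lM_cont : ContinuousAt lM 0 := lA_cont.div lR_cont (by rw [lR_zero]; norm_num)

/-- the parameter `σ` is small -/
structure Small (σ : ℝ) : Prop where
  one : |σ| < 1
  R : |lR σ - 1| < 1 / 10
  M : |lM σ - 1| < 1 / 10
  B : |lB σ - 1| < 1 / 10
  bR : Function.Bijective (psi 0 fR (lR σ))
  bM : Function.Bijective (psi 0 fA (lM σ))
  bB : Function.Bijective (psi c0 fB (lB σ))
  dR : ∀ x, ∃ A : E3 ≃L[ℝ] E3, HasFDerivAt (psi 0 fR (lR σ)) (A : E3 →L[ℝ] E3) x
  dM : ∀ x, ∃ A : E3 ≃L[ℝ] E3, HasFDerivAt (psi 0 fA (lM σ)) (A : E3 →L[ℝ] E3) x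
  dB : ∀ x, ∃ A : E3 ≃L[ℝ] E3, HasFDerivAt (psi c0 fB (lB σ)) (A : E3 →L[ℝ] E3) x

lemma small_of {L : ℝ≥0} {μ : ℝ} (h : |μ - 1| < 1 / (L + 1)) : ‖μ - 1‖₊ * L < 1 := by
  rw [← NNReal.coe_lt_coe, NNReal.coe_mul, coe_nnnorm, Real.norm_eq_abs, NNReal.coe_one]
  have h1 : (0 : ℝ) ≤ L := L.2
  rw [lt_div_iff₀ (by positivity)] at h
  have h2 := abs_nonneg (μ - 1)
  nlinarith

lemma exists_small : ∃ η : ℝ, 0 < η ∧ ∀ σ : ℝ, |σ| ≤ η → Small σ := by
  obtain ⟨L1, h1⟩ := rad_lip fR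
  obtain ⟨L2, h2⟩ := rad_lip fA
  obtain ⟨L3, h3⟩ := rad_lip fB
  have key : ∀ (g : ℝ → ℝ) (δ : ℝ), 0 < δ → ContinuousAt g 0 → g 0 = 1 →
      ∀ᶠ σ in 𝓝 (0 : ℝ), |g σ - 1| < δ := by
    intro g δ hδ hg hg0
    have := Metric.continuousAt_iff'.1 hg δ hδ
    simpa [hg0, Real.dist_eq] using this
  have e0 : ∀ᶠ σ in 𝓝 (0 : ℝ), |σ| < 1 := by
    have := Metric.ball_mem_nhds (0 : ℝ) one_pos
    filter_upwards [this] with σ hσ
    simpa [Real.dist_eq] using hσ
  have ev : ∀ᶠ σ in 𝓝 (0 : ℝ), Small σ := by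
    filter_upwards [e0, key lR (1 / 10) (by norm_num) lR_cont lR_zero,
      key lM (1 / 10) (by norm_num) lM_cont lM_zero, key lB (1 / 10) (by norm_num) lB_cont lB_zero,
      key lR (1 / (L1 + 1)) (by positivity) lR_cont lR_zero,
      key lM (1 / (L2 + 1)) (by positivity) lM_cont lM_zero,
      key lB (1 / (L3 + 1)) (by positivity) lB_cont lB_zero] with σ g0 g1 g2 g3 g4 g5 g6
    exact ⟨g0, g1, g2, g3, psi_bij fR h1 (small_of g4), psi_bij fA h2 (small_of g5),
      psi_bij fB h3 (small_of g6), psi_deriv fR h1 (small_of g4), psi_deriv fA h2 (small_of g5),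
      psi_deriv fB h3 (small_of g6)⟩
  obtain ⟨η, hη, h⟩ := Metric.eventually_nhds_iff.1 ev
  refine ⟨η / 2, by positivity, fun σ hσ => h ?_⟩
  rw [Real.dist_eq, sub_zero]
  linarith

namespace Small

variable {σ : ℝ} (h : Small σ)
include h

lemma bij : Function.Bijective (Psi σ) := h.bB.comp (h.bR.comp h.bM)

lemma deriv (x : E3) : ∃ A : E3 ≃L[ℝ] E3, HasFDerivAt (Psi σ) (A : E3 →L[ℝ] E3) x := by
  obtain ⟨A1, h1⟩ := h.dM x
  obtain ⟨A2, h2⟩ := h.dR (psi 0 fA (lM σ) x)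
  obtain ⟨A3, h3⟩ := h.dB (psi 0 fR (lR σ) (psi 0 fA (lM σ) x))
  refine ⟨(A1.trans A2).trans A3, ?_⟩
  exact h3.comp x (h2.comp x h1)

lemma far {x : E3} (hx : dist x 0 ≤ 71 / 10) : fB.rOut ≤ dist x c0 := by
  have h1 : dist c0 0 = 10 := by rw [dist_zero_right, norm_c0]
  have h2 := dist_triangle c0 x 0
  rw [dist_comm c0 x] at h2
  change (29 / 10 : ℝ) ≤ dist x c0
  linarith

lemma far' {x : E3} (hx : dist x c0 ≤ 3) : 7 ≤ dist x 0 := by
  have h1 : dist c0 0 = 10 := by rw [dist_zero_right, norm_c0]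
  have h2 := dist_triangle c0 x 0
  rw [dist_comm c0 x] at h2
  linarith

/-- the images of the inner ball, the outer ball, the third ball, and of their boundaries -/
lemma image_comp (s : Set E3) : Psi σ '' s =
    psi c0 fB (lB σ) '' (psi 0 fR (lR σ) '' (psi 0 fA (lM σ) '' s)) := by
  rw [image_image, image_image]
  rfl

lemma radA : lR σ * (lM σ * 3) = 3 * lA σ := by
  have := (lR_pos h.one).ne'
  rw [lM]
  field_simp

lemma three : lM σ * 3 ≤ fR.rIn := by
  have := abs_lt.1 h.M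
  change lM σ * 3 ≤ 13 / 2
  linarith

lemma three' : 3 * lA σ ≤ 71 / 10 := by
  have h1 := abs_lt.1 h.M
  have h2 := abs_lt.1 h.R
  rw [← h.radA]
  have h3 := lR_pos h.one
  have h4 := lM_pos h.one
  nlinarith

lemma six' : lR σ * 6 ≤ 71 / 10 := by
  have h2 := abs_lt.1 h.R
  linarith

lemma imgA_ball : Psi σ '' ball 0 3 = ball 0 (3 * lA σ) := by
  rw [h.image_comp, psi_ball fA (lM_pos h.one) (by change (3 : ℝ) ≤ 4; norm_num),
    psi_ball fR (lR_pos h.one) h.three, h.radA]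
  exact psi_fix fB fun x hx => h.far ((mem_ball.1 hx).le.trans h.three')

lemma imgA_closedBall : Psi σ '' closedBall 0 3 = closedBall 0 (3 * lA σ) := by
  rw [h.image_comp, psi_closedBall fA (lM_pos h.one) (by change (3 : ℝ) ≤ 4; norm_num),
    psi_closedBall fR (lR_pos h.one) h.three, h.radA]
  exact psi_fix fB fun x hx => h.far ((mem_closedBall.1 hx).trans h.three')

lemma imgA_sphere : Psi σ '' sphere 0 3 = sphere 0 (3 * lA σ) := by
  rw [h.image_comp, psi_sphere fA (lM_pos h.one) (by change (3 : ℝ) ≤ 4; norm_num),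
    psi_sphere fR (lR_pos h.one) h.three, h.radA]
  exact psi_fix fB fun x hx => h.far ((mem_sphere.1 hx).le.trans h.three')

lemma imgR_ball : Psi σ '' ball 0 6 = ball 0 (6 * lR σ) := by
  have h1 : psi 0 fA (lM σ) '' ball 0 6 = ball 0 6 := by
    refine image_eq_of_compl h.bM fun x hx => psi_eq_self fA ?_
    rw [mem_ball, not_lt] at hx
    change (5 : ℝ) ≤ dist x 0
    linarith
  rw [h.image_comp, h1, psi_ball fR (lR_pos h.one) (by change (6 : ℝ) ≤ 13 / 2; norm_num),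
    mul_comm]
  refine psi_fix fB fun x hx => h.far ?_
  have := h.six'
  have := mem_ball.1 hx
  linarith

lemma imgR_sphere : Psi σ '' sphere 0 6 = sphere 0 (6 * lR σ) := by
  have h1 : psi 0 fA (lM σ) '' sphere 0 6 = sphere 0 6 := by
    refine psi_fix fA fun x hx => ?_
    rw [mem_sphere] at hx
    change (5 : ℝ) ≤ dist x 0
    linarith
  rw [h.image_comp, h1, psi_sphere fR (lR_pos h.one) (by change (6 : ℝ) ≤ 13 / 2; norm_num),
    mul_comm]
  refine psi_fix fB fun x hx => h.far ?_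
  have := h.six'
  have := mem_sphere.1 hx
  linarith

lemma fixB {s : Set E3} (hs : ∀ x ∈ s, dist x c0 ≤ 3) :
    psi 0 fR (lR σ) '' (psi 0 fA (lM σ) '' s) = s := by
  have h1 : psi 0 fA (lM σ) '' s = s := by
    refine psi_fix fA fun x hx => ?_
    have := h.far' (hs x hx)
    change (5 : ℝ) ≤ dist x 0
    linarith
  rw [h1]
  refine psi_fix fR fun x hx => ?_
  have := h.far' (hs x hx)
  change (7 : ℝ) ≤ dist x 0
  linarith

lemma imgB_ball : Psi σ '' ball c0 2 = ball c0 (2 * lB σ) := by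
  rw [h.image_comp, h.fixB fun x hx => by have := mem_ball.1 hx; linarith,
    psi_ball fB (lB_pos h.one) (by change (2 : ℝ) ≤ 5 / 2; norm_num), mul_comm]

lemma imgB_sphere : Psi σ '' sphere c0 2 = sphere c0 (2 * lB σ) := by
  rw [h.image_comp, h.fixB fun x hx => by have := mem_sphere.1 hx; linarith,
    psi_sphere fB (lB_pos h.one) (by change (2 : ℝ) ≤ 5 / 2; norm_num), mul_comm]

/-- outside a compact set the map is the identity -/
lemma fix_far {x : E3} (hx : 13 ≤ ‖x‖) : Psi σ x = x := by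
  have h0 : 13 ≤ dist x 0 := by rwa [dist_zero_right]
  have h1 : dist c0 0 = 10 := by rw [dist_zero_right, norm_c0]
  have h2 := dist_triangle x c0 0
  rw [Psi, psi_eq_self fA (by change (5 : ℝ) ≤ dist x 0; linarith),
    psi_eq_self fR (by change (7 : ℝ) ≤ dist x 0; linarith),
    psi_eq_self fB (by change (29 / 10 : ℝ) ≤ dist x c0; linarith)]

end Small

end Pool.Agent.U503.KC
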