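import Mathlib
import Pool.Agent.Helper843.SphA

set_option autoImplicit false

/-!
# Radial diffeomorphisms of space

`psi c f μ` is the homothety with centre `c` and factor `μ` on the inner ball of the bump function `f`
around `c`, and the identity outside its outer ball.
-/

open Set Filter Topology Metric MeasureTheory
open scoped ContDiff ENNReal NNReal Pointwise

namespace Pool.Agent.U503.KC

/-- Euclidean space. -/
abbrev E3 : Type := EuclideanSpace ℝ (Fin 3)

/-- the radial vector field -/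
noncomputable def rad (c : E3) (f : ContDiffBump c) (x : E3) : E3 := f x • (x - c)

/-- the radial map -/
noncomputable def psi (c : E3) (f : ContDiffBump c) (μ : ℝ) (x : E3) : E3 :=
  x + (μ - 1) • rad c f x

variable {c : E3} (f : ContDiffBump c)

lemma rad_smooth : ContDiff ℝ ∞ (rad c f) :=
  f.contDiff.smul (contDiff_id.sub contDiff_const)

lemma rad_lip : ∃ L : ℝ≥0, LipschitzWith L (rad c f) := by
  have h : HasCompactSupport (rad c f) := f.hasCompactSupport.smul_right
  exact ContDiff.lipschitzWith_of_hasCompactSupport h (rad_smooth f) (by simp)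

lemma psi_zero_sub (x : E3) : psi c f 1 x = x := by simp [psi]

lemma psi_eq_hom {μ : ℝ} {x : E3} (hx : dist x c ≤ f.rIn) : psi c f μ x = c + μ • (x - c) := by
  have h : f x = 1 := f.one_of_mem_closedBall hx
  rw [psi, rad, h, one_smul, sub_smul, one_smul]
  abel

lemma psi_eq_self {μ : ℝ} {x : E3} (hx : f.rOut ≤ dist x c) : psi c f μ x = x := by
  have h : f x = 0 := f.zero_of_le_dist hx
  rw [psi, rad, h, zero_smul, smul_zero, add_zero]

/-- the radial map is a bijection with invertible derivative -/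
lemma psi_approx {L : ℝ≥0} (hL : LipschitzWith L (rad c f)) {μ : ℝ} :
    LipschitzWith (‖μ - 1‖₊ * L) (fun x => psi c f μ x - x) := by
  have h : (fun x => psi c f μ x - x) = fun x => (μ - 1) • rad c f x := by
    funext x
    rw [psi, add_sub_cancel_left]
  rw [h]
  refine LipschitzWith.of_dist_le_mul fun x y => ?_
  rw [dist_smul₀, NNReal.coe_mul, coe_nnnorm, mul_assoc]
  exact mul_le_mul_of_nonneg_left (hL.dist_le_mul x y) (norm_nonneg _)

lemma psi_bij {L : ℝ≥0} (hL : LipschitzWith L (rad c f)) {μ : ℝ} (hμ : ‖μ - 1‖₊ * L < 1) :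
    Function.Bijective (psi c f μ) := by
  have h1 : ApproximatesLinearOn (psi c f μ)
      ((ContinuousLinearEquiv.refl ℝ E3 : E3 ≃L[ℝ] E3) : E3 →L[ℝ] E3) univ (‖μ - 1‖₊ * L) := by
    intro x _ y _
    have h2 := (psi_approx f hL (μ := μ)).dist_le_mul x y
    rw [dist_eq_norm, dist_eq_norm] at h2
    refine le_trans (le_of_eq ?_) h2
    congr 1
    simp only [ContinuousLinearEquiv.coe_refl, ContinuousLinearMap.coe_id', id_eq]
    abel
  have h3 : Subsingleton E3 ∨ ‖μ - 1‖₊ * L <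
      ‖((ContinuousLinearEquiv.refl ℝ E3).symm : E3 →L[ℝ] E3)‖₊⁻¹ := by
    right
    have h4 : ‖((ContinuousLinearEquiv.refl ℝ E3).symm : E3 →L[ℝ] E3)‖₊ = 1 := by
      rw [← NNReal.coe_inj, coe_nnnorm]
      exact ContinuousLinearMap.norm_id
    rw [h4, inv_one]
    exact hμ
  exact (h1.toHomeomorph _ h3).bijective

lemma psi_deriv {L : ℝ≥0} (hL : LipschitzWith L (rad c f)) {μ : ℝ} (hμ : ‖μ - 1‖₊ * L < 1)
    (x : E3) : ∃ A : E3 ≃L[ℝ] E3, HasFDerivAt (psi c f μ) (A : E3 →L[ℝ] E3) x := by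
  have h1 : HasFDerivAt (rad c f) (fderiv ℝ (rad c f) x) x :=
    ((rad_smooth f).differentiable (by simp) x).hasFDerivAt
  have h2 : ‖fderiv ℝ (rad c f) x‖ ≤ L := norm_fderiv_le_of_lipschitz ℝ hL
  set B : E3 →L[ℝ] E3 := -((μ - 1) • fderiv ℝ (rad c f) x) with hB
  have h3 : ‖B‖ < 1 := by
    rw [hB, norm_neg, norm_smul]
    have h4 : ‖μ - 1‖ * ‖fderiv ℝ (rad c f) x‖ ≤ ‖μ - 1‖ * L :=
      mul_le_mul_of_nonneg_left h2 (norm_nonneg _)
    have h5 : ‖μ - 1‖ * (L : ℝ) < 1 := by
      have := NNReal.coe_lt_coe.2 hμ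
      simpa using this
    linarith
  refine ⟨ContinuousLinearEquiv.unitsEquiv ℝ E3 (Units.oneSub B h3), ?_⟩
  have h6 : ((ContinuousLinearEquiv.unitsEquiv ℝ E3 (Units.oneSub B h3) : E3 ≃L[ℝ] E3) :
      E3 →L[ℝ] E3) = ContinuousLinearMap.id ℝ E3 + (μ - 1) • fderiv ℝ (rad c f) x := by
    ext1 y
    have : ((Units.oneSub B h3 : (E3 →L[ℝ] E3)ˣ) : E3 →L[ℝ] E3) = 1 - B := rfl
    change ((Units.oneSub B h3 : (E3 →L[ℝ] E3)ˣ) : E3 →L[ℝ] E3) y = _
    rw [this, hB, sub_neg_eq_add]
    rfl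
  rw [h6]
  exact (hasFDerivAt_id x).add (h1.const_smul (μ - 1))

/-! ### images -/

lemma hom_image_ball {μ : ℝ} (hμ : 0 < μ) (c : E3) (r : ℝ) :
    (fun x : E3 => c + μ • (x - c)) '' ball c r = ball c (μ * r) := by
  ext y
  constructor
  · rintro ⟨x, hx, rfl⟩
    rw [mem_ball, dist_eq_norm] at hx ⊢
    rw [add_sub_cancel_left, norm_smul, Real.norm_of_nonneg hμ.le]
    exact mul_lt_mul_of_pos_left hx hμ
  · intro hy
    rw [mem_ball, dist_eq_norm] at hy
    refine ⟨c + μ⁻¹ • (y - c), ?_, ?_⟩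
    · rw [mem_ball, dist_eq_norm, add_sub_cancel_left, norm_smul, norm_inv,
        Real.norm_of_nonneg hμ.le, inv_mul_lt_iff₀ hμ]
      exact hy
    · simp only [add_sub_cancel_left]
      rw [smul_smul, mul_inv_cancel₀ hμ.ne', one_smul, add_sub_cancel]

lemma hom_image_sphere {μ : ℝ} (hμ : 0 < μ) (c : E3) (r : ℝ) :
    (fun x : E3 => c + μ • (x - c)) '' sphere c r = sphere c (μ * r) := by
  ext y
  constructor
  · rintro ⟨x, hx, rfl⟩
    rw [mem_sphere, dist_eq_norm] at hx ⊢
    rw [add_sub_cancel_left, norm_smul, Real.norm_of_nonneg hμ.le, hx]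
  · intro hy
    rw [mem_sphere, dist_eq_norm] at hy
    refine ⟨c + μ⁻¹ • (y - c), ?_, ?_⟩
    · rw [mem_sphere, dist_eq_norm, add_sub_cancel_left, norm_smul, norm_inv,
        Real.norm_of_nonneg hμ.le, hy, inv_mul_cancel_left₀ hμ.ne']
    · simp only [add_sub_cancel_left]
      rw [smul_smul, mul_inv_cancel₀ hμ.ne', one_smul, add_sub_cancel]

lemma hom_image_closedBall {μ : ℝ} (hμ : 0 < μ) (c : E3) (r : ℝ) :
    (fun x : E3 => c + μ • (x - c)) '' closedBall c r = closedBall c (μ * r) := by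
  rw [← ball_union_sphere, image_union, hom_image_ball hμ, hom_image_sphere hμ, ball_union_sphere]

lemma psi_ball {μ r : ℝ} (hμ : 0 < μ) (hr : r ≤ f.rIn) :
    psi c f μ '' ball c r = ball c (μ * r) := by
  rw [← hom_image_ball hμ]
  exact image_congr fun x hx => psi_eq_hom f ((mem_ball.1 hx).le.trans hr)

lemma psi_closedBall {μ r : ℝ} (hμ : 0 < μ) (hr : r ≤ f.rIn) :
    psi c f μ '' closedBall c r = closedBall c (μ * r) := by
  rw [← hom_image_closedBall hμ]
  exact image_congr fun x hx => psi_eq_hom f ((mem_closedBall.1 hx).trans hr)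

lemma psi_sphere {μ r : ℝ} (hμ : 0 < μ) (hr : r ≤ f.rIn) :
    psi c f μ '' sphere c r = sphere c (μ * r) := by
  rw [← hom_image_sphere hμ]
  exact image_congr fun x hx => psi_eq_hom f ((mem_sphere.1 hx).le.trans hr)

lemma psi_fix {μ : ℝ} {s : Set E3} (hs : ∀ x ∈ s, f.rOut ≤ dist x c) :
    psi c f μ '' s = s := by
  conv_rhs => rw [← image_id s]
  exact image_congr fun x hx => psi_eq_self f (hs x hx)

lemma image_eq_of_compl {g : E3 → E3} (hg : Function.Bijective g) {U : Set E3}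
    (h : ∀ x, x ∉ U → g x = x) : g '' U = U := by
  have h1 : g '' Uᶜ = Uᶜ := by
    conv_rhs => rw [← image_id Uᶜ]
    exact image_congr fun x hx => h x hx
  have h2 := image_compl_eq (s := U) hg
  rw [h1] at h2
  exact (compl_injective h2).symm

/-! ### measures -/

/-- the measure of the unit ball -/
noncomputable def V1 : ℝ≥0∞ := volume (ball (0 : E3) 1)

lemma V1_pos : 0 < V1 := measure_ball_pos _ _ one_pos
lemma V1_lt : V1 < ⊤ := measure_ball_lt_top

lemma vol_ball (x : E3) {r : ℝ} (hr : 0 ≤ r) :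
    volume (ball x r) = ENNReal.ofReal (r ^ 3) * V1 := by
  rw [Measure.addHaar_ball _ x hr, finrank_euclideanSpace_fin]
  rfl

lemma vol_closedBall (x : E3) {r : ℝ} (hr : 0 ≤ r) :
    volume (closedBall x r) = ENNReal.ofReal (r ^ 3) * V1 := by
  rw [Measure.addHaar_closedBall _ x hr, finrank_euclideanSpace_fin]
  rfl

/-- the area of the unit sphere -/
noncomputable def A1 : ℝ≥0∞ := μH[2] (sphere (0 : E3) 1)

lemma A1_pos : 0 < A1 := by
  have h := Pool.Agent.Helper843.SphA.muSp_pos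
  have e : sphere (0 : E3) 1 = Pool.Agent.Helper843.SphA.Sp := by
    ext z
    simp [Pool.Agent.Helper843.SphA.Sp]
  rw [A1, e]
  exact h

lemma A1_lt : A1 < ⊤ := by
  have h := Pool.Agent.Helper843.SphA.muSp_lt_top
  have e : sphere (0 : E3) 1 = Pool.Agent.Helper843.SphA.Sp := by
    ext z
    simp [Pool.Agent.Helper843.SphA.Sp]
  rw [A1, e]
  exact h

lemma area_sphere (x : E3) {r : ℝ} (hr : 0 < r) :
    μH[2] (sphere x r) = ENNReal.ofReal (r ^ 2) * A1 := by
  have h1 : sphere x r = (fun y : E3 => x + y) '' (sphere 0 r) := by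
    ext y
    constructor
    · intro hy
      rw [mem_sphere, dist_eq_norm] at hy
      exact ⟨y - x, by rw [mem_sphere, dist_zero_right, hy], by simp⟩
    · rintro ⟨z, hz, rfl⟩
      rw [mem_sphere, dist_zero_right] at hz
      rw [mem_sphere, dist_eq_norm, add_sub_cancel_left, hz]
  have h2 : sphere (0 : E3) r = r • sphere (0 : E3) 1 := by
    rw [smul_sphere' hr.ne', smul_zero, Real.norm_of_nonneg hr.le, mul_one]
  have h3 : Isometry (fun y : E3 => x + y) := isometry_add_left x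
  rw [h1, h3.hausdorffMeasure_image (Or.inl (by norm_num)), h2,
    Measure.hausdorffMeasure_smul₀ (by norm_num) hr.ne']
  rw [A1, ENNReal.smul_def, smul_eq_mul]
  congr 1
  rw [ENNReal.ofReal, ENNReal.coe_inj, ← NNReal.coe_inj]
  rw [NNReal.coe_rpow, coe_nnnorm, Real.norm_of_nonneg hr.le, Real.coe_toNNReal _ (by positivity)]
  norm_num

end Pool.Agent.U503.KC
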