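import Pool.Agent.U503.KC.Def

set_option autoImplicit false
set_option linter.unusedSectionVars false

/-!
# The regions of the example and their frontiers
-/

open Set Filter Topology Metric MeasureTheory
open scoped ContDiff ENNReal NNReal Pointwise

namespace Pool.Agent.U503.KC

/-- the cell with two components -/
def cA : Set E3 := ball 0 3 ∪ ball c0 2
/-- the cell between two concentric spheres -/
def cR : Set E3 := ball 0 6 \ closedBall 0 3
/-- the exterior -/
def cE : Set E3 := {y | 6 < dist y 0 ∧ 2 < dist y c0}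

lemma dist_c0 (x : E3) : 10 ≤ dist x 0 + dist x c0 := by
  have h1 : dist c0 0 = 10 := by rw [dist_zero_right, norm_c0]
  have h2 := dist_triangle c0 x 0
  rw [dist_comm c0 x] at h2
  linarith

lemma mem_cA {x : E3} : x ∈ cA ↔ dist x 0 < 3 ∨ dist x c0 < 2 := Iff.rfl
lemma mem_cR {x : E3} : x ∈ cR ↔ dist x 0 < 6 ∧ 3 < dist x 0 := by
  rw [cR, Set.mem_sdiff, mem_ball, mem_closedBall, not_le]
lemma mem_cE {x : E3} : x ∈ cE ↔ 6 < dist x 0 ∧ 2 < dist x c0 := Iff.rfl

lemma isOpen_cA : IsOpen cA := isOpen_ball.union isOpen_ball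
lemma isOpen_cR : IsOpen cR := isOpen_ball.sdiff isClosed_closedBall

lemma ev_lt {c x : E3} {a : ℝ} (h : dist x c < a) : ∀ᶠ y in 𝓝 x, dist y c < a :=
  (isOpen_lt (continuous_id.dist continuous_const) continuous_const).mem_nhds h
lemma ev_gt {c x : E3} {a : ℝ} (h : a < dist x c) : ∀ᶠ y in 𝓝 x, a < dist y c :=
  (isOpen_lt continuous_const (continuous_id.dist continuous_const)).mem_nhds h

/-- local equality and frontiers -/
lemma frontier_congr {s t : Set E3} {x : E3} (h : ∀ᶠ y in 𝓝 x, (y ∈ s ↔ y ∈ t)) :
    x ∈ frontier s ↔ x ∈ frontier t := by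
  rw [frontier_eq_closure_inter_closure, frontier_eq_closure_inter_closure, mem_inter_iff,
    mem_inter_iff, mem_closure_iff_frequently, mem_closure_iff_frequently,
    mem_closure_iff_frequently, mem_closure_iff_frequently]
  have h1 : (∃ᶠ y in 𝓝 x, y ∈ s) ↔ ∃ᶠ y in 𝓝 x, y ∈ t := frequently_congr h
  have h2 : (∃ᶠ y in 𝓝 x, y ∈ sᶜ) ↔ ∃ᶠ y in 𝓝 x, y ∈ tᶜ :=
    frequently_congr (h.mono fun y hy => not_congr hy)
  rw [h1, h2]

lemma closure_congr_at {s t : Set E3} {x : E3} (h : ∀ᶠ y in 𝓝 x, (y ∈ s ↔ y ∈ t)) :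
    x ∈ closure s ↔ x ∈ closure t := by
  rw [mem_closure_iff_frequently, mem_closure_iff_frequently]
  exact frequently_congr h

lemma not_frontier_of_true {s : Set E3} {x : E3} (h : ∀ᶠ y in 𝓝 x, y ∈ s) : x ∉ frontier s := by
  rw [frontier_congr (t := univ) (h.mono fun y hy => by simp [hy]), frontier_univ]
  exact notMem_empty x

lemma not_frontier_of_false {s : Set E3} {x : E3} (h : ∀ᶠ y in 𝓝 x, y ∉ s) : x ∉ frontier s := by
  rw [frontier_congr (t := ∅) (h.mono fun y hy => by simp [hy]), frontier_empty]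
  exact notMem_empty x

lemma frontier_ball' (c : E3) {r : ℝ} (hr : 0 < r) : frontier (ball c r) = sphere c r :=
  frontier_ball c hr.ne'

lemma frontier_out (c : E3) {r : ℝ} (hr : 0 < r) : frontier {y : E3 | r < dist y c} = sphere c r := by
  have : {y : E3 | r < dist y c} = (closedBall c r)ᶜ := by
    ext y
    simp
  rw [this, frontier_compl, frontier_closedBall c hr.ne']

/-! ### local descriptions -/

lemma near3 {x : E3} (hx : dist x 0 = 3) : ∀ᶠ y in 𝓝 x,
    (y ∈ cA ↔ dist y 0 < 3) ∧ (y ∈ cR ↔ 3 < dist y 0) ∧ y ∉ cE := by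
  filter_upwards [ev_lt (show dist x 0 < 4 by linarith)] with y hy
  have h1 := dist_c0 y
  rw [mem_cA, mem_cR, mem_cE]
  refine ⟨⟨fun h => ?_, Or.inl⟩, ⟨fun h => h.2, fun h => ⟨by linarith, h⟩⟩, fun h => ?_⟩
  · rcases h with h | h
    · exact h
    · linarith
  · linarith [h.1]

lemma near6 {x : E3} (hx : dist x 0 = 6) : ∀ᶠ y in 𝓝 x,
    (y ∈ cR ↔ dist y 0 < 6) ∧ (y ∈ cE ↔ 6 < dist y 0) ∧ y ∉ cA := by
  filter_upwards [ev_lt (show dist x 0 < 7 by linarith), ev_gt (show 5 < dist x 0 by linarith)]
    with y hy hy'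
  have h1 := dist_c0 y
  rw [mem_cA, mem_cR, mem_cE]
  refine ⟨⟨fun h => h.1, fun h => ⟨h, by linarith⟩⟩, ⟨fun h => h.1, fun h => ⟨h, by linarith⟩⟩,
    fun h => ?_⟩
  rcases h with h | h <;> linarith

lemma near2 {x : E3} (hx : dist x c0 = 2) : ∀ᶠ y in 𝓝 x,
    (y ∈ cA ↔ dist y c0 < 2) ∧ (y ∈ cE ↔ 2 < dist y c0) ∧ y ∉ cR := by
  filter_upwards [ev_lt (show dist x c0 < 3 by linarith)] with y hy
  have h1 := dist_c0 y
  rw [mem_cA, mem_cR, mem_cE]
  refine ⟨⟨fun h => ?_, Or.inr⟩, ⟨fun h => h.2, fun h => ⟨by linarith, h⟩⟩, fun h => ?_⟩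
  · rcases h with h | h
    · linarith
    · exact h
  · linarith [h.1]

/-- away from the three spheres, each point is interior to one of the three regions -/
lemma nearOther {x : E3} (h3 : dist x 0 ≠ 3) (h6 : dist x 0 ≠ 6) (h2 : dist x c0 ≠ 2) :
    (∀ᶠ y in 𝓝 x, y ∈ cA ∧ y ∉ cR ∧ y ∉ cE) ∨ (∀ᶠ y in 𝓝 x, y ∉ cA ∧ y ∈ cR ∧ y ∉ cE) ∨
      (∀ᶠ y in 𝓝 x, y ∉ cA ∧ y ∉ cR ∧ y ∈ cE) := by
  rcases lt_or_gt_of_ne h3 with a | a
  · left
    filter_upwards [ev_lt a] with y hy
    rw [mem_cA, mem_cR, mem_cE]
    exact ⟨Or.inl hy, fun h => by linarith [h.2], fun h => by linarith [h.1]⟩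
  · rcases lt_or_gt_of_ne h6 with b | b
    · right; left
      filter_upwards [ev_lt b, ev_gt a] with y hy hy'
      have h1 := dist_c0 y
      rw [mem_cA, mem_cR, mem_cE]
      exact ⟨fun h => by rcases h with h | h <;> linarith, ⟨hy, hy'⟩, fun h => by linarith [h.1]⟩
    · rcases lt_or_gt_of_ne h2 with e | e
      · left
        filter_upwards [ev_gt b, ev_lt e] with y hy hy'
        rw [mem_cA, mem_cR, mem_cE]
        exact ⟨Or.inr hy', fun h => by linarith [h.1], fun h => by linarith [h.2]⟩
      · right; right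
        filter_upwards [ev_gt b, ev_gt e] with y hy hy'
        rw [mem_cA, mem_cR, mem_cE]
        exact ⟨fun h => by rcases h with h | h <;> linarith, fun h => by linarith [h.1], ⟨hy, hy'⟩⟩

lemma frontier_cA : frontier cA = sphere 0 3 ∪ sphere c0 2 := by
  ext x
  rw [mem_union, mem_sphere, mem_sphere]
  by_cases h3 : dist x 0 = 3
  · rw [frontier_congr (t := ball 0 3) ((near3 h3).mono fun y hy => hy.1), frontier_ball' _ (by norm_num),
      mem_sphere]
    tauto
  by_cases h2 : dist x c0 = 2
  · rw [frontier_congr (t := ball c0 2) ((near2 h2).mono fun y hy => hy.1), frontier_ball' _ (by norm_num),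
      mem_sphere]
    tauto
  by_cases h6 : dist x 0 = 6
  · have := not_frontier_of_false ((near6 h6).mono fun y hy => hy.2.2)
    simp only [this, h3, h2, or_self]
  · rcases nearOther h3 h6 h2 with h | h | h
    · have := not_frontier_of_true (h.mono fun y hy => hy.1)
      simp only [this, h3, h2, or_self]
    · have := not_frontier_of_false (h.mono fun y hy => hy.1)
      simp only [this, h3, h2, or_self]
    · have := not_frontier_of_false (h.mono fun y hy => hy.1)
      simp only [this, h3, h2, or_self]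

lemma frontier_cR : frontier cR = sphere 0 3 ∪ sphere 0 6 := by
  ext x
  rw [mem_union, mem_sphere, mem_sphere]
  by_cases h3 : dist x 0 = 3
  · rw [frontier_congr (t := {y | 3 < dist y 0}) ((near3 h3).mono fun y hy => hy.2.1),
      frontier_out _ (by norm_num), mem_sphere]
    tauto
  by_cases h6 : dist x 0 = 6
  · rw [frontier_congr (t := ball 0 6) ((near6 h6).mono fun y hy => hy.1), frontier_ball' _ (by norm_num),
      mem_sphere]
    tauto
  by_cases h2 : dist x c0 = 2
  · have := not_frontier_of_false ((near2 h2).mono fun y hy => hy.2.2)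
    simp only [this, h3, h6, or_self]
  · rcases nearOther h3 h6 h2 with h | h | h
    · have := not_frontier_of_false (h.mono fun y hy => hy.2.1)
      simp only [this, h3, h6, or_self]
    · have := not_frontier_of_true (h.mono fun y hy => hy.2.1)
      simp only [this, h3, h6, or_self]
    · have := not_frontier_of_false (h.mono fun y hy => hy.2.1)
      simp only [this, h3, h6, or_self]

lemma frontier_cE : frontier cE = sphere 0 6 ∪ sphere c0 2 := by
  ext x
  rw [mem_union, mem_sphere, mem_sphere]
  by_cases h6 : dist x 0 = 6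
  · rw [frontier_congr (t := {y | 6 < dist y 0}) ((near6 h6).mono fun y hy => hy.2.1),
      frontier_out _ (by norm_num), mem_sphere]
    tauto
  by_cases h2 : dist x c0 = 2
  · rw [frontier_congr (t := {y | 2 < dist y c0}) ((near2 h2).mono fun y hy => hy.2.1),
      frontier_out _ (by norm_num), mem_sphere]
    tauto
  by_cases h3 : dist x 0 = 3
  · have := not_frontier_of_false ((near3 h3).mono fun y hy => hy.2.2)
    simp only [this, h2, h6, or_self]
  · rcases nearOther h3 h6 h2 with h | h | h
    · have := not_frontier_of_false (h.mono fun y hy => hy.2.2)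
      simp only [this, h2, h6, or_self]
    · have := not_frontier_of_false (h.mono fun y hy => hy.2.2)
      simp only [this, h2, h6, or_self]
    · have := not_frontier_of_true (h.mono fun y hy => hy.2.2)
      simp only [this, h2, h6, or_self]

/-- the exterior is the complement of the closure of the union of the cells -/
lemma closure_cells : (closure (cA ∪ cR))ᶜ = cE := by
  ext x
  rw [mem_compl_iff]
  by_cases h3 : dist x 0 = 3
  · have h : x ∈ closure (cA ∪ cR) := by
      have h1 : x ∈ closure cA := frontier_subset_closure (by rw [frontier_cA]; exact Or.inl h3)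
      exact closure_mono subset_union_left h1
    simp only [h, not_true_eq_false, mem_cE, false_iff]
    intro h'
    linarith [h'.1]
  by_cases h6 : dist x 0 = 6
  · have h : x ∈ closure (cA ∪ cR) := by
      have h1 : x ∈ closure cR := frontier_subset_closure (by rw [frontier_cR]; exact Or.inr h6)
      exact closure_mono subset_union_right h1
    simp only [h, not_true_eq_false, mem_cE, false_iff]
    intro h'
    linarith [h'.1]
  by_cases h2 : dist x c0 = 2
  · have h : x ∈ closure (cA ∪ cR) := by
      have h1 : x ∈ closure cA := frontier_subset_closure (by rw [frontier_cA]; exact Or.inr h2)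
      exact closure_mono subset_union_left h1
    simp only [h, not_true_eq_false, mem_cE, false_iff]
    intro h'
    linarith [h'.2]
  · rcases nearOther h3 h6 h2 with h | h | h
    · have h' := h.self_of_nhds
      have : x ∈ closure (cA ∪ cR) := subset_closure (Or.inl h'.1)
      simp only [this, h'.2.2, not_true_eq_false, not_false_eq_true]
    · have h' := h.self_of_nhds
      have : x ∈ closure (cA ∪ cR) := subset_closure (Or.inr h'.2.1)
      simp only [this, h'.2.2, not_true_eq_false, not_false_eq_true]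
    · have h' := h.self_of_nhds
      have : x ∉ closure (cA ∪ cR) := by
        rw [mem_closure_iff_frequently]
        intro hf
        exact hf (h.mono fun y hy => by rintro (a | a); exacts [hy.1 a, hy.2.1 a])
      simp only [this, h'.2.2, not_true_eq_false, not_false_eq_true]

/-! ### the images and their measures -/

lemma vol_disj {a b : ℝ} (h : a + b ≤ 10) : Disjoint (ball (0 : E3) a) (ball c0 b) := by
  rw [Set.disjoint_left]
  intro x hx hx'
  have := dist_c0 x
  rw [mem_ball] at hx hx'
  linarith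

lemma vol_cA (σ : ℝ) (h : Small σ) : volume (Psi σ '' cA) = 35 * V1 := by
  have h1 := lA_pos h.one
  have h2 := lB_pos h.one
  have h3 := h.three'
  have h4 := abs_lt.1 h.B
  rw [cA, image_union, h.imgA_ball, h.imgB_ball,
    measure_union (vol_disj (by linarith)) isOpen_ball.measurableSet,
    vol_ball _ (by positivity), vol_ball _ (by positivity), lA_cube h.one, lB_cube h.one, ← add_mul,
    ← ENNReal.ofReal_add (by linarith [(abs_lt.1 h.one).1]) (by linarith [(abs_lt.1 h.one).2])]
  congr 1
  rw [show (27 + σ + (8 - σ) : ℝ) = 35 by ring]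
  norm_num

lemma lA_lt (σ : ℝ) (h : Small σ) : 3 * lA σ < 6 * lR σ := by
  have h1 := abs_lt.1 h.M
  have h2 := lR_pos h.one
  rw [← h.radA]
  nlinarith

lemma vol_cR (σ : ℝ) (h : Small σ) : volume (Psi σ '' cR) = 189 * V1 := by
  have h1 := lA_pos h.one
  have h2 := lR_pos h.one
  have h3 : closedBall (0 : E3) (3 * lA σ) ⊆ ball 0 (6 * lR σ) :=
    closedBall_subset_ball (lA_lt σ h)
  rw [cR, image_sdiff h.bij.1, h.imgR_ball, h.imgA_closedBall,
    measure_sdiff h3 measurableSet_closedBall.nullMeasurableSet measure_closedBall_lt_top.ne,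
    vol_ball _ (by positivity), vol_closedBall _ (by positivity), lA_cube h.one, lR_cube h.one,
    ← ENNReal.sub_mul (fun _ _ => V1_lt.ne), ← ENNReal.ofReal_sub _
      (by linarith [(abs_lt.1 h.one).1])]
  congr 1
  rw [show (216 + σ - (27 + σ) : ℝ) = 189 by ring]
  norm_num

/-- the union of the three spheres -/
def surf : Set E3 := sphere 0 3 ∪ sphere 0 6 ∪ sphere c0 2

lemma area_surf (σ : ℝ) (h : Small σ) : μH[2] (Psi σ '' surf) =
    ENNReal.ofReal ((3 * lA σ) ^ 2 + (6 * lR σ) ^ 2 + (2 * lB σ) ^ 2) * A1 := by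
  have h1 := lA_pos h.one
  have h2 := lR_pos h.one
  have h3 := lB_pos h.one
  have h4 := lA_lt σ h
  have h5 := h.six'
  have h6 := abs_lt.1 h.B
  have d1 : Disjoint (sphere (0 : E3) (3 * lA σ)) (sphere 0 (6 * lR σ)) := by
    rw [Set.disjoint_left]
    intro x hx hx'
    rw [mem_sphere] at hx hx'
    linarith
  have d2 : Disjoint (sphere (0 : E3) (3 * lA σ) ∪ sphere 0 (6 * lR σ)) (sphere c0 (2 * lB σ)) := by
    rw [Set.disjoint_left]
    intro x hx hx'
    have h7 := dist_c0 x
    have h8 := h.three'
    rw [mem_sphere] at hx'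
    rcases hx with hx | hx <;> rw [mem_sphere] at hx <;> linarith
  rw [surf, image_union, image_union, h.imgA_sphere, h.imgR_sphere, h.imgB_sphere,
    measure_union d2 isClosed_sphere.measurableSet, measure_union d1 isClosed_sphere.measurableSet,
    area_sphere _ (by positivity), area_sphere _ (by positivity), area_sphere _ (by positivity),
    ← add_mul, ← add_mul, ← ENNReal.ofReal_add (by positivity) (by positivity),
    ← ENNReal.ofReal_add (by positivity) (by positivity)]

end Pool.Agent.U503.KC
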